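import Mathlib

/-!
# The weight inequality for a hyperplane and the cube

For real numbers `a i` the weights `1 / (|x| C(n, |x|))` of the nonempty sets `x` with
`∑ i ∈ x, a i = 1` have sum at most `1`. Proof: among the `|x|` rotations of an ordering of `x` one has
all proper partial sums less than `1`.
-/

open Finset Numbering

namespace Pool.Agent.Helper68.LG

/-- Rotation of the first `t` places by `r`. -/
def rot {N t r : ℕ} (ht : t ≤ N) (hr : r < t) : Fin N ≃ Fin N where
  toFun i := if h : i.1 < t then (if h2 : r ≤ i.1 then ⟨i.1 - r, by omega⟩ else ⟨i.1 + t - r, by omega⟩) else i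
  invFun i := if h : i.1 < t then (if h2 : i.1 + r < t then ⟨i.1 + r, by omega⟩ else ⟨i.1 + r - t, by omega⟩)
    else i
  left_inv i := by
    apply Fin.ext
    by_cases h : i.1 < t
    · by_cases h2 : r ≤ i.1
      · simp only [h, h2, dite_true]
        have h3 : i.1 - r < t := by omega
        have h4 : i.1 - r + r < t := by omega
        simp only [h3, h4, dite_true]
        omega
      · simp only [h, h2, dite_true, dite_false]
        have h3 : i.1 + t - r < t := by omega
        have h4 : ¬ (i.1 + t - r + r < t) := by omega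
        simp only [h3, h4, dite_true, dite_false]
        omega
    · simp only [h, dite_false]
  right_inv i := by
    apply Fin.ext
    by_cases h : i.1 < t
    · by_cases h2 : i.1 + r < t
      · simp only [h, h2, dite_true]
        have h4 : r ≤ i.1 + r := by omega
        simp only [h4, dite_true]
        omega
      · simp only [h, h2, dite_true, dite_false]
        have h3 : i.1 + r - t < t := by omega
        have h4 : ¬ (r ≤ i.1 + r - t) := by omega
        simp only [h3, h4, dite_true, dite_false]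
        omega
    · simp only [h, dite_false]

theorem rot_val {N t r : ℕ} (ht : t ≤ N) (hr : r < t) (i : Fin N) :
    (i.1 < t → r ≤ i.1 → (rot ht hr i).1 = i.1 - r) ∧
    (i.1 < t → ¬ r ≤ i.1 → (rot ht hr i).1 = i.1 + t - r) ∧
    (¬ i.1 < t → (rot ht hr i).1 = i.1) := by
  refine ⟨fun h h2 => ?_, fun h h2 => ?_, fun h => ?_⟩
  · show ((if h : i.1 < t then (if h2 : r ≤ i.1 then (⟨i.1 - r, by omega⟩ : Fin N) else ⟨i.1 + t - r, by omega⟩)
      else i).1) = _
    rw [dif_pos h, dif_pos h2]
  · show ((if h : i.1 < t then (if h2 : r ≤ i.1 then (⟨i.1 - r, by omega⟩ : Fin N) else ⟨i.1 + t - r, by omega⟩)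
      else i).1) = _
    rw [dif_pos h, dif_neg h2]
  · show ((if h : i.1 < t then (if h2 : r ≤ i.1 then (⟨i.1 - r, by omega⟩ : Fin N) else ⟨i.1 + t - r, by omega⟩)
      else i).1) = _
    rw [dif_neg h]

theorem rot_lt {N t r : ℕ} (ht : t ≤ N) (hr : r < t) {s : ℕ} (hs : s < t) (i : Fin N) :
    ((rot ht hr i).1 < s) ↔ (if r + s ≤ t then r ≤ i.1 ∧ i.1 < r + s else
      (r ≤ i.1 ∧ i.1 < t) ∨ i.1 < r + s - t) := by
  obtain ⟨h1, h2, h3⟩ := rot_val ht hr i
  by_cases h : i.1 < t
  · by_cases h4 : r ≤ i.1
    · have h5 := h1 h h4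
      split_ifs <;> omega
    · have h5 := h2 h h4
      split_ifs <;> omega
  · have h5 := h3 h
    split_ifs <;> omega

/-- The sum of the first `s` values. -/
noncomputable def ps {n : ℕ} (a : Fin n → ℝ) (f : Numbering (Fin n)) (s : ℕ) : ℝ :=
  ∑ x ∈ univ.filter (fun x => (f x).1 < s), a x

theorem ps_split {n : ℕ} (a : Fin n → ℝ) (f : Numbering (Fin n)) {u v : ℕ} (h : u ≤ v) :
    ∑ x ∈ univ.filter (fun x => u ≤ (f x).1 ∧ (f x).1 < v), a x = ps a f v - ps a f u := by
  unfold ps
  rw [eq_sub_iff_add_eq, ← sum_union]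
  · congr 1
    ext x
    simp only [mem_union, mem_filter, mem_univ, true_and]
    omega
  · rw [disjoint_left]
    intro x hx hx2
    simp only [mem_filter, mem_univ, true_and] at hx hx2
    omega

theorem ps_rot {n : ℕ} (a : Fin n → ℝ) (f : Numbering (Fin n)) {t r : ℕ}
    (ht : t ≤ Fintype.card (Fin n)) (hr : r < t) {s : ℕ} (hs : s < t) :
    ps a (f.trans (rot ht hr)) s = if r + s ≤ t then ps a f (r + s) - ps a f r else
      (ps a f t - ps a f r) + ps a f (r + s - t) := by
  have e1 : ps a (f.trans (rot ht hr)) s = ∑ x ∈ univ.filter (fun x => ((rot ht hr (f x)).1 < s)), a x := rfl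
  rw [e1, filter_congr fun x _ => rot_lt ht hr hs (f x)]
  split_ifs with h
  · exact ps_split a f (by omega)
  · rw [← ps_split a f hr.le]
    unfold ps
    rw [← sum_union]
    · congr 1
      ext x
      simp only [mem_union, mem_filter, mem_univ, true_and]
    · rw [disjoint_left]
      intro x hx hx2
      simp only [mem_filter, mem_univ, true_and] at hx hx2
      omega

/-- First passage. -/
noncomputable def FF {n : ℕ} (a : Fin n → ℝ) (x : Finset (Fin n)) : Finset (Numbering (Fin n)) :=
  (prefixed x).filter fun f => ∀ s, s < x.card → ps a f s < 1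

theorem ps_self {n : ℕ} (a : Fin n → ℝ) {x : Finset (Fin n)} {f : Numbering (Fin n)} (hf : f ∈ prefixed x) :
    ps a f x.card = ∑ i ∈ x, a i := by
  rw [mem_prefixed] at hf
  unfold ps
  congr 1
  ext i
  rw [mem_filter, hf i]
  exact and_iff_right (mem_univ _)

theorem exists_rot {n : ℕ} (a : Fin n → ℝ) {x : Finset (Fin n)} (hx : x.Nonempty) (ha : ∑ i ∈ x, a i = 1)
    {f : Numbering (Fin n)} (hf : f ∈ prefixed x) :
    ∃ (r : ℕ) (hr : r < x.card), f.trans (rot (card_le_univ x) hr) ∈ FF a x := by
  classical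
  obtain ⟨r0, hr0, hmax⟩ := exists_max_image (range x.card) (fun s => ps a f s)
    (by rw [nonempty_range_iff]; exact hx.card_pos.ne')
  rw [mem_range] at hr0
  have hex : ∃ r, r < x.card ∧ ps a f r0 ≤ ps a f r := ⟨r0, hr0, le_rfl⟩
  set r := Nat.find hex with hrdef
  have hr := Nat.find_spec hex
  have hmin : ∀ s, s < r → ps a f s < ps a f r0 := by
    intro s hs
    have h1 := Nat.find_min hex hs
    push Not at h1
    exact h1 (lt_trans hs hr.1)
  refine ⟨r, hr.1, ?_⟩
  have hf' : f.trans (rot (card_le_univ x) hr.1) ∈ prefixed x := by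
    rw [mem_prefixed] at hf ⊢
    intro i
    rw [hf i]
    have h1 : (f.trans (rot (card_le_univ x) hr.1)) i = rot (card_le_univ x) hr.1 (f i) := rfl
    rw [h1]
    obtain ⟨g1, g2, g3⟩ := rot_val (card_le_univ x) hr.1 (f i)
    by_cases h : (f i).1 < x.card
    · by_cases h2 : r ≤ (f i).1
      · have := g1 h h2
        have := hr.1
        constructor <;> intro _ <;> omega
      · have := g2 h h2
        have := hr.1
        constructor <;> intro _ <;> omega
    · have := g3 h
      constructor <;> intro _ <;> omega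
  rw [FF, mem_filter]
  refine ⟨hf', fun s hs => ?_⟩
  rw [ps_rot a f (card_le_univ x) hr.1 hs, ps_self a hf, ha]
  split_ifs with h
  · rcases h.lt_or_eq with h1 | h1
    · have h2 := hmax (r + s) (mem_range.2 h1)
      linarith [hr.2]
    · rw [h1, ps_self a hf, ha]
      have hr1 : 0 < r := by omega
      have h2 := hmin 0 hr1
      have h3 : ps a f 0 = 0 := by simp [ps]
      rw [h3] at h2
      linarith [hr.2]
  · have h2 := hmin (r + s - x.card) (by omega)
    linarith [hr.2]

theorem card_FF {n : ℕ} (a : Fin n → ℝ) {x : Finset (Fin n)} (hx : x.Nonempty) (ha : ∑ i ∈ x, a i = 1) :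
    (prefixed x).card ≤ x.card * (FF a x).card := by
  classical
  let g : Fin x.card → Finset (Numbering (Fin n)) := fun r =>
    univ.filter fun f => f.trans (rot (card_le_univ x) r.2) ∈ FF a x
  have h1 : prefixed x ⊆ univ.biUnion g := by
    intro f hf
    obtain ⟨r, hr, h⟩ := exists_rot a hx ha hf
    rw [mem_biUnion]
    refine ⟨⟨r, hr⟩, mem_univ _, ?_⟩
    rw [mem_filter]
    exact ⟨mem_univ _, h⟩
  have h2 : ∀ r ∈ (univ : Finset (Fin x.card)), (g r).card ≤ (FF a x).card := by
    intro r _
    refine card_le_card_of_injOn (fun f => f.trans (rot (card_le_univ x) r.2)) ?_ ?_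
    · intro f hf
      rw [mem_coe, mem_filter] at hf
      exact hf.2
    · intro f _ f' _ h
      ext i
      have h3 := congrArg (fun e : Numbering (Fin n) => e i) h
      exact congrArg Fin.val ((rot (card_le_univ x) r.2).injective h3)
  have h3 := card_biUnion_le_card_mul univ g _ h2
  have h4 : (univ : Finset (Fin x.card)).card = x.card := by
    rw [card_univ, Fintype.card_fin]
  have h5 : (univ.biUnion g).card ≤ x.card * (FF a x).card := h3.trans_eq (congrArg (· * (FF a x).card) h4)
  exact (card_le_card h1).trans h5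

theorem disj_FF {n : ℕ} (a : Fin n → ℝ) {x y : Finset (Fin n)} (hx : ∑ i ∈ x, a i = 1)
    (hy : ∑ i ∈ y, a i = 1) (hxy : x ≠ y) : Disjoint (FF a x) (FF a y) := by
  rw [disjoint_left]
  intro f hfx hfy
  rw [FF, mem_filter] at hfx hfy
  rcases lt_trichotomy x.card y.card with h | h | h
  · have h1 := hfy.2 _ h
    rw [ps_self a hfx.1, hx] at h1
    exact lt_irrefl _ h1
  · apply hxy
    have h1 := (mem_prefixed.1 hfx.1)
    have h2 := (mem_prefixed.1 hfy.1)
    ext i
    rw [h1 i, h2 i, h]
  · have h1 := hfx.2 _ h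
    rw [ps_self a hfy.1, hy] at h1
    exact lt_irrefl _ h1

/-- The weight inequality. -/
theorem weight {n : ℕ} (a : Fin n → ℝ) :
    ∑ x ∈ (univ : Finset (Finset (Fin n))).filter (fun x => x.Nonempty ∧ ∑ i ∈ x, a i = 1),
      (1 : ℝ) / (x.card * n.choose x.card) ≤ 1 := by
  classical
  have hN : (0 : ℝ) < (n.factorial : ℝ) := by exact_mod_cast n.factorial_pos
  have h1 : ∀ x ∈ (univ : Finset (Finset (Fin n))).filter (fun x => x.Nonempty ∧ ∑ i ∈ x, a i = 1),
      (1 : ℝ) / (x.card * n.choose x.card) ≤ ((FF a x).card : ℝ) / n.factorial := by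
    intro x hx
    rw [mem_filter] at hx
    have h2 := card_FF a hx.2.1 hx.2.2
    rw [card_prefixed, Fintype.card_fin] at h2
    have hxn : x.card ≤ n := by
      have := card_le_univ x
      rwa [Fintype.card_fin] at this
    have h3 := Nat.choose_mul_factorial_mul_factorial hxn
    have hx0 : (0 : ℝ) < x.card := by exact_mod_cast hx.2.1.card_pos
    have hc0 : (0 : ℝ) < n.choose x.card := by exact_mod_cast Nat.choose_pos hxn
    rw [div_le_div_iff₀ (by positivity) hN, one_mul]
    have h4 : n.factorial ≤ n.choose x.card * (x.card * (FF a x).card) := by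
      rw [← h3, mul_assoc]
      exact Nat.mul_le_mul_left _ h2
    have h5 : (n.factorial : ℝ) ≤ n.choose x.card * (x.card * (FF a x).card) := by exact_mod_cast h4
    linarith
  refine (sum_le_sum h1).trans ?_
  rw [← sum_div, div_le_one hN]
  have h2 : ∑ x ∈ (univ : Finset (Finset (Fin n))).filter (fun x => x.Nonempty ∧ ∑ i ∈ x, a i = 1),
      (FF a x).card ≤ n.factorial := by
    rw [← card_biUnion]
    · refine (card_le_univ _).trans_eq ?_
      rw [Fintype.card_equiv (Fintype.equivFin (Fin n)), Fintype.card_fin]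
    · intro x hx y hy hxy
      rw [mem_coe, mem_filter] at hx hy
      exact disj_FF a hx.2.2 hy.2.2 hxy
  exact_mod_cast h2

/-- The number of members of a `k`-cover is at least `k` times the harmonic number. -/
theorem harmonic_le {n k N : ℕ} (a : Fin N → Fin n → ℝ)
    (h : ∀ x : Finset (Fin n), x.Nonempty → k ≤ (univ.filter fun j => ∑ i ∈ x, a j i = 1).card) :
    (k : ℝ) * ∑ t ∈ range n, (1 : ℝ) / (t + 1) ≤ N := by
  classical
  have h1 : ∑ j : Fin N, ∑ x ∈ (univ : Finset (Finset (Fin n))).filter
      (fun x => x.Nonempty ∧ ∑ i ∈ x, a j i = 1), (1 : ℝ) / (x.card * n.choose x.card) ≤ N := by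
    calc _ ≤ ∑ j : Fin N, (1 : ℝ) := sum_le_sum fun j _ => weight (a j)
      _ = N := by simp
  refine le_trans ?_ h1
  have h2 : ∀ j : Fin N, ∑ x ∈ (univ : Finset (Finset (Fin n))).filter
      (fun x => x.Nonempty ∧ ∑ i ∈ x, a j i = 1), (1 : ℝ) / (x.card * n.choose x.card) =
      ∑ x ∈ (univ : Finset (Finset (Fin n))).filter (fun x => x.Nonempty),
        (if ∑ i ∈ x, a j i = 1 then (1 : ℝ) / (x.card * n.choose x.card) else 0) := by
    intro j
    rw [← sum_filter, filter_filter]
  rw [sum_congr rfl fun j _ => h2 j, sum_comm]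
  have h3 : ∀ x ∈ (univ : Finset (Finset (Fin n))).filter (fun x => x.Nonempty),
      (k : ℝ) * (1 / (x.card * n.choose x.card)) ≤
      ∑ j : Fin N, (if ∑ i ∈ x, a j i = 1 then (1 : ℝ) / (x.card * n.choose x.card) else 0) := by
    intro x hx
    rw [mem_filter] at hx
    rw [← sum_filter, sum_const, nsmul_eq_mul]
    have h4 := h x hx.2
    have h5 : (k : ℝ) ≤ ((univ.filter fun j => ∑ i ∈ x, a j i = 1).card : ℝ) := by exact_mod_cast h4
    exact mul_le_mul_of_nonneg_right h5 (by positivity)
  refine le_trans (le_of_eq ?_) (sum_le_sum h3)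
  rw [← mul_sum]
  congr 1
  -- group the sets by their sizes
  have h6 : ∀ x ∈ (univ : Finset (Finset (Fin n))).filter (fun x => x.Nonempty), x.card - 1 ∈ range n := by
    intro x hx
    rw [mem_filter] at hx
    have hxn : x.card ≤ n := by
      have := card_le_univ x
      rwa [Fintype.card_fin] at this
    have := hx.2.card_pos
    rw [mem_range]
    omega
  rw [← sum_fiberwise_of_maps_to h6]
  refine sum_congr rfl fun t ht => ?_
  rw [mem_range] at ht
  have h7 : ((univ : Finset (Finset (Fin n))).filter (fun x => x.Nonempty)).filter (fun x => x.card - 1 = t) =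
      powersetCard (t + 1) univ := by
    ext x
    rw [mem_filter, mem_filter, mem_powersetCard]
    constructor
    · rintro ⟨⟨-, h8⟩, h9⟩
      have := h8.card_pos
      exact ⟨subset_univ _, by omega⟩
    · rintro ⟨-, h8⟩
      exact ⟨⟨mem_univ _, card_pos.1 (by omega)⟩, by omega⟩
  rw [h7]
  have h8 : ∀ x ∈ powersetCard (t + 1) (univ : Finset (Fin n)), (1 : ℝ) / (x.card * n.choose x.card) =
      1 / ((t + 1 : ℕ) * n.choose (t + 1)) := by
    intro x hx
    rw [mem_powersetCard] at hx
    rw [hx.2]
  rw [sum_congr rfl h8, sum_const, card_powersetCard, card_univ, Fintype.card_fin, nsmul_eq_mul]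
  have hc0 : (0 : ℝ) < n.choose (t + 1) := by exact_mod_cast Nat.choose_pos (by omega : t + 1 ≤ n)
  push_cast
  field_simp

end Pool.Agent.Helper68.LG
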