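import Mathlib

/-!
# Almost `k`-covers of the cube with `n + O(k log n)` members

The rows are `∑ i ∈ A, x i = 1` for sets `A` of coordinates: the singletons and, for every scale
`s = 1, 2, 4, …`, sets chosen greedily (a derandomised choice of random sets of density `1 / (2 s)`).
-/

open Finset

namespace Pool.Agent.Helper68.LG

/-- Greedy choice: if every target `x` is met by three tenths of the choices then `m` choices can be made
with a small value of the potential. -/
theorem pot {Φ X : Type} [Fintype Φ] [DecidableEq Φ] (T : Finset X) (good : X → Finset Φ)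
    (hgood : ∀ x ∈ T, 3 * (Fintype.card Φ : ℝ) ≤ 10 * ((good x).card : ℝ)) (hΦ : 0 < Fintype.card Φ) (m : ℕ) :
    ∃ φ : Fin m → Φ, ∑ x ∈ T, (1 / 2 : ℝ) ^ ((univ.filter fun j => φ j ∈ good x).card) ≤
      T.card * (17 / 20 : ℝ) ^ m := by
  induction m with
  | zero => exact ⟨Fin.elim0, by simp⟩
  | succ m ih =>
    obtain ⟨φ, hφ⟩ := ih
    set N : X → ℕ := fun x => (univ.filter fun j => φ j ∈ good x).card with hN
    have havg : ∑ ψ : Φ, ∑ x ∈ T, (1 / 2 : ℝ) ^ (N x + if ψ ∈ good x then 1 else 0) ≤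
        ∑ _ψ : Φ, (17 / 20 : ℝ) * ∑ x ∈ T, (1 / 2 : ℝ) ^ N x := by
      rw [sum_comm, sum_const, card_univ, nsmul_eq_mul, mul_sum, mul_sum]
      refine sum_le_sum fun x hx => ?_
      have h1 : ∀ ψ : Φ, (1 / 2 : ℝ) ^ (N x + if ψ ∈ good x then 1 else 0) =
          (1 / 2 : ℝ) ^ N x * (1 - (if ψ ∈ good x then (1 / 2 : ℝ) else 0)) := by
        intro ψ
        rw [pow_add]
        congr 1
        split_ifs <;> norm_num
      rw [sum_congr rfl fun ψ _ => h1 ψ, ← mul_sum, sum_sub_distrib, ← sum_filter, sum_const, sum_const,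
        filter_mem_eq_inter, univ_inter, card_univ, nsmul_eq_mul, nsmul_eq_mul]
      have h2 := hgood x hx
      have h3 : (0 : ℝ) ≤ (1 / 2 : ℝ) ^ N x := by positivity
      nlinarith
    obtain ⟨ψ, -, hψ⟩ := exists_le_of_sum_le (s := (univ : Finset Φ))
      (univ_nonempty_iff.2 (Fintype.card_pos_iff.1 hΦ)) havg
    refine ⟨Fin.cons ψ φ, ?_⟩
    have h4 : ∀ x, (univ.filter fun j : Fin (m + 1) => (Fin.cons ψ φ : Fin (m + 1) → Φ) j ∈ good x).card =
        N x + if ψ ∈ good x then 1 else 0 := by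
      intro x
      rw [Fin.card_filter_univ_succ]
      simp only [Fin.cons_zero, Fin.cons_succ]
      split_ifs <;> rfl
    rw [sum_congr rfl fun x _ => by rw [h4 x]]
    refine hψ.trans ?_
    rw [pow_succ]
    nlinarith

/-- The maps with exactly one element of `x` sent to `0`. -/
def one {n s : ℕ} (hs : 0 < s) (x : Finset (Fin n)) : Finset (Fin n → Fin (2 * s)) :=
  univ.filter fun φ => ((univ.filter fun i => φ i = ⟨0, by omega⟩) ∩ x).card = 1

theorem pow_aux {s t : ℕ} (hs : 1 ≤ s) (h1 : s ≤ t) (h2 : t < 2 * s) :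
    3 * (2 * s : ℝ) ^ t ≤ 10 * (t * (2 * s - 1 : ℝ) ^ (t - 1)) := by
  have hs0 : (1 : ℝ) ≤ s := by exact_mod_cast hs
  have ht0 : (s : ℝ) ≤ t := by exact_mod_cast h1
  have ht1 : (t : ℝ) + 1 ≤ 2 * s := by exact_mod_cast h2
  have hr0 : (0 : ℝ) < 2 * s - 1 := by linarith
  have e1 : (((t - 1 : ℕ)) : ℝ) = t - 1 := by
    rw [Nat.cast_sub (by omega), Nat.cast_one]
  set y : ℝ := t / (2 * s) with hy
  have hy1 : 1 / 2 ≤ y := by
    rw [hy, le_div_iff₀ (by linarith)]
    linarith
  have hy2 : y ≤ 1 := by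
    rw [hy, div_le_one (by linarith)]
    linarith
  have hty : (t : ℝ) = y * (2 * s) := by
    rw [hy, div_mul_cancel₀]
    linarith
  -- `(2 s) ^ (t - 1) ≤ e ^ y (2 s - 1) ^ (t - 1)`
  have h3 : (2 * s : ℝ) ^ (t - 1) ≤ Real.exp y * (2 * s - 1 : ℝ) ^ (t - 1) := by
    have h4 : (2 * s : ℝ) = (2 * s - 1) * (1 / (2 * s - 1) + 1) := by
      rw [mul_add, mul_one_div_cancel hr0.ne']
      ring
    have h5 : (1 / (2 * s - 1 : ℝ) + 1) ^ (t - 1) ≤ Real.exp y := by
      calc (1 / (2 * s - 1 : ℝ) + 1) ^ (t - 1) ≤ (Real.exp (1 / (2 * s - 1))) ^ (t - 1) :=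
            pow_le_pow_left₀ (by positivity) (Real.add_one_le_exp _) _
        _ = Real.exp ((t - 1 : ℕ) * (1 / (2 * s - 1))) := by rw [← Real.exp_nat_mul]
        _ ≤ Real.exp y := by
            apply Real.exp_le_exp.2
            rw [e1, hy, mul_one_div, div_le_div_iff₀ hr0 (by linarith)]
            nlinarith
    calc (2 * s : ℝ) ^ (t - 1) = ((2 * s - 1) * (1 / (2 * s - 1) + 1)) ^ (t - 1) := by rw [← h4]
      _ = (2 * s - 1 : ℝ) ^ (t - 1) * (1 / (2 * s - 1) + 1) ^ (t - 1) := mul_pow _ _ _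
      _ ≤ (2 * s - 1 : ℝ) ^ (t - 1) * Real.exp y := by gcongr
      _ = _ := mul_comm _ _
  -- `e ^ y ≤ (10 / 3) y` on `[1 / 2, 1]`
  have h6 : 3 * Real.exp y ≤ 10 * y := by
    have h7 : Real.exp (1 / 2) ≤ 1.65 := by
      have h8 : Real.exp (1 / 2) ^ 2 ≤ 1.65 ^ 2 := by
        rw [← Real.exp_nat_mul]
        have := Real.exp_one_lt_d9
        norm_num at this ⊢
        linarith
      exact le_of_sq_le_sq h8 (by norm_num)
    have h9 : Real.exp (-y) ≥ (3 / 2 - y) * Real.exp (-(1 / 2)) := by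
      have h10 : -y = (1 / 2 - y) + -(1 / 2) := by ring
      rw [h10, Real.exp_add]
      have := Real.add_one_le_exp (1 / 2 - y)
      have h11 := Real.exp_pos (-(1 / 2 : ℝ))
      nlinarith
    have h12 : Real.exp (-(1 / 2 : ℝ)) * Real.exp (1 / 2) = 1 := by
      rw [← Real.exp_add]
      norm_num
    have h13 : Real.exp (-y) * Real.exp y = 1 := by
      rw [← Real.exp_add]
      norm_num
    have h14 : (6 / 10 : ℝ) ≤ Real.exp (-(1 / 2 : ℝ)) := by
      have := Real.exp_pos (-(1 / 2 : ℝ))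
      nlinarith
    have h15 : 3 / 10 ≤ y * Real.exp (-y) := by
      have h16 : 1 / 2 ≤ y * (3 / 2 - y) := by nlinarith
      nlinarith
    have := Real.exp_pos y
    calc 3 * Real.exp y = 10 * (3 / 10) * Real.exp y := by ring
      _ ≤ 10 * (y * Real.exp (-y)) * Real.exp y := by gcongr
      _ = 10 * y * (Real.exp (-y) * Real.exp y) := by ring
      _ = 10 * y := by rw [h13, mul_one]
  have h17 : (2 * s : ℝ) ^ t = (2 * s : ℝ) ^ (t - 1) * (2 * s) := by
    rw [← pow_succ]
    congr 1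
    omega
  have h18 : 0 ≤ (2 * s - 1 : ℝ) ^ (t - 1) := by positivity
  rw [h17, hty]
  calc 3 * ((2 * s : ℝ) ^ (t - 1) * (2 * s)) ≤ 3 * (Real.exp y * (2 * s - 1 : ℝ) ^ (t - 1) * (2 * s)) := by
        gcongr
    _ = 3 * Real.exp y * ((2 * s - 1 : ℝ) ^ (t - 1) * (2 * s)) := by ring
    _ ≤ 10 * y * ((2 * s - 1 : ℝ) ^ (t - 1) * (2 * s)) := by gcongr
    _ = _ := by ring

theorem card_one {n s : ℕ} (hs : 0 < s) (x : Finset (Fin n)) (h1 : s ≤ x.card) (h2 : x.card < 2 * s) :
    3 * (Fintype.card (Fin n → Fin (2 * s)) : ℝ) ≤ 10 * ((one hs x).card : ℝ) := by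
  classical
  -- the maps sending `i` to `0` and no other element of `x`
  let F : Fin n → Finset (Fin n → Fin (2 * s)) := fun i => Fintype.piFinset fun j =>
    if j = i then {⟨0, by omega⟩} else if j ∈ x then univ.erase ⟨0, by omega⟩ else univ
  have hFc : ∀ i ∈ x, (F i).card = (2 * s - 1) ^ (x.card - 1) * (2 * s) ^ (n - x.card) := by
    intro i hi
    rw [Fintype.card_piFinset]
    have e1 : ∀ j, (if j = i then ({⟨0, by omega⟩} : Finset (Fin (2 * s))) else
        if j ∈ x then univ.erase ⟨0, by omega⟩ else univ).card =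
        (if j ∈ x then (if j = i then 1 else 2 * s - 1) else 2 * s) := by
      intro j
      by_cases hj : j = i
      · subst hj
        simp [hi]
      · by_cases hjx : j ∈ x
        · simp [hj, hjx]
        · simp [hj, hjx]
    rw [prod_congr rfl fun j _ => e1 j, prod_ite]
    congr 1
    · rw [filter_mem_eq_inter, univ_inter, ← mul_prod_erase _ _ hi, if_pos rfl, one_mul,
        prod_congr rfl fun j hj => if_neg (ne_of_mem_erase hj), prod_const, card_erase_of_mem hi]
    · rw [prod_const]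
      congr 1
      have h3 := card_compl x
      rw [Fintype.card_fin] at h3
      rw [← h3]
      congr 1
      ext j
      simp
  have hdis : (x : Set (Fin n)).PairwiseDisjoint F := by
    intro i hi j hj hij
    rw [Function.onFun, disjoint_left]
    intro φ hφi hφj
    rw [Fintype.mem_piFinset] at hφi hφj
    have a1 := hφi i
    have a2 := hφj i
    rw [if_pos rfl, mem_singleton] at a1
    rw [if_neg hij, if_pos (by exact_mod_cast hi), mem_erase] at a2
    exact a2.1 a1
  have hsub : x.biUnion F ⊆ one hs x := by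
    intro φ hφ
    rw [mem_biUnion] at hφ
    obtain ⟨i, hi, hφi⟩ := hφ
    rw [Fintype.mem_piFinset] at hφi
    rw [one, mem_filter]
    refine ⟨mem_univ _, ?_⟩
    rw [card_eq_one]
    refine ⟨i, ?_⟩
    ext j
    rw [mem_inter, mem_filter, mem_singleton]
    constructor
    · rintro ⟨⟨-, hj0⟩, hjx⟩
      by_contra hji
      have a1 := hφi j
      rw [if_neg hji, if_pos hjx, mem_erase] at a1
      exact a1.1 hj0
    · rintro rfl
      have a1 := hφi j
      rw [if_pos rfl, mem_singleton] at a1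
      exact ⟨⟨mem_univ _, a1⟩, hi⟩
  have hcard : x.card * ((2 * s - 1) ^ (x.card - 1) * (2 * s) ^ (n - x.card)) ≤ (one hs x).card := by
    calc x.card * ((2 * s - 1) ^ (x.card - 1) * (2 * s) ^ (n - x.card)) = ∑ i ∈ x, (F i).card := by
          rw [sum_congr rfl hFc, sum_const, smul_eq_mul]
      _ = (x.biUnion F).card := (card_biUnion hdis).symm
      _ ≤ _ := card_le_card hsub
  have hxn : x.card ≤ n := by
    have := card_le_univ x
    rwa [Fintype.card_fin] at this
  have hcard' : (x.card : ℝ) * ((2 * s - 1 : ℝ) ^ (x.card - 1) * (2 * s : ℝ) ^ (n - x.card)) ≤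
      ((one hs x).card : ℝ) := by
    have h5 : ((2 * s - 1 : ℕ) : ℝ) = 2 * (s : ℝ) - 1 := by
      rw [Nat.cast_sub (by omega)]
      push_cast
      ring
    have := (Nat.cast_le (α := ℝ)).2 hcard
    push_cast at this
    rw [h5] at this
    exact this
  rw [Fintype.card_fun, Fintype.card_fin, Fintype.card_fin]
  push_cast
  have h6 : (2 * s : ℝ) ^ n = (2 * s : ℝ) ^ x.card * (2 * s : ℝ) ^ (n - x.card) := by
    rw [← pow_add]
    congr 1
    omega
  have h7 := pow_aux hs h1 h2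
  have h8 : (0 : ℝ) ≤ (2 * s : ℝ) ^ (n - x.card) := by positivity
  rw [h6]
  calc 3 * ((2 * s : ℝ) ^ x.card * (2 * s : ℝ) ^ (n - x.card)) =
        3 * (2 * s : ℝ) ^ x.card * (2 * s : ℝ) ^ (n - x.card) := by ring
    _ ≤ 10 * (x.card * (2 * s - 1 : ℝ) ^ (x.card - 1)) * (2 * s : ℝ) ^ (n - x.card) := by gcongr
    _ = 10 * (x.card * ((2 * s - 1 : ℝ) ^ (x.card - 1) * (2 * s : ℝ) ^ (n - x.card))) := by ring
    _ ≤ 10 * ((one hs x).card : ℝ) := by linarith

theorem card_small (n r : ℕ) : ((univ : Finset (Finset (Fin n))).filter fun x => x.card ≤ r).card ≤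
    (n + 1) ^ r := by
  induction r with
  | zero =>
    rw [pow_zero, card_le_one]
    intro a ha b hb
    rw [mem_filter] at ha hb
    rw [card_eq_zero.1 (Nat.le_zero.1 ha.2), card_eq_zero.1 (Nat.le_zero.1 hb.2)]
  | succ r ih =>
    have h1 : ((univ : Finset (Finset (Fin n))).filter fun x => x.card ≤ r + 1) ⊆
        ((univ : Finset (Finset (Fin n))).filter fun x => x.card ≤ r) ∪ powersetCard (r + 1) univ := by
      intro x hx
      rw [mem_filter] at hx
      rw [mem_union, mem_filter, mem_powersetCard]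
      rcases Nat.lt_or_ge r x.card with h | h
      · exact Or.inr ⟨subset_univ _, by omega⟩
      · exact Or.inl ⟨mem_univ _, h⟩
    have h2 := (card_le_card h1).trans (card_union_le _ _)
    rw [card_powersetCard, card_univ, Fintype.card_fin] at h2
    have h3 : n.choose (r + 1) ≤ n * (n + 1) ^ r :=
      (Nat.choose_le_pow n (r + 1)).trans (by
        rw [pow_succ']
        exact Nat.mul_le_mul_left _ (Nat.pow_le_pow_left (by omega) _))
    calc _ ≤ _ := h2
      _ ≤ (n + 1) ^ r + n * (n + 1) ^ r := Nat.add_le_add ih h3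
      _ = (n + 1) ^ (r + 1) := by ring

/-- One scale: `m` sets such that every `x` with `s ≤ |x| < 2 s` meets at least `k` of them in exactly
one element. -/
theorem scale {n s k m : ℕ} (hs : 0 < s)
    (hm : 25 / 4 * (2 * s * Real.log (n + 1) + k * Real.log 2) ≤ m) :
    ∃ A : Fin m → Finset (Fin n), ∀ x : Finset (Fin n), s ≤ x.card → x.card < 2 * s →
      k ≤ (univ.filter fun j => (A j ∩ x).card = 1).card := by
  classical
  set T : Finset (Finset (Fin n)) := univ.filter fun x => s ≤ x.card ∧ x.card < 2 * s with hT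
  have hpos : 0 < Fintype.card (Fin n → Fin (2 * s)) := by
    rw [Fintype.card_fun, Fintype.card_fin, Fintype.card_fin]
    positivity
  obtain ⟨φ, hφ⟩ := pot T (fun x => one hs x) (fun x hx => by
    rw [hT, mem_filter] at hx
    exact card_one hs x hx.2.1 hx.2.2) hpos m
  refine ⟨fun j => univ.filter fun i => φ j i = ⟨0, by omega⟩, fun x h1 h2 => ?_⟩
  by_contra hcon
  rw [not_le] at hcon
  have hx : x ∈ T := by
    rw [hT, mem_filter]
    exact ⟨mem_univ _, h1, h2⟩
  have e1 : (univ.filter fun j => φ j ∈ one hs x) =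
      univ.filter fun j => (((univ.filter fun i => φ j i = ⟨0, by omega⟩)) ∩ x).card = 1 := by
    ext j
    simp [one]
  have h3 : (1 / 2 : ℝ) ^ ((univ.filter fun j => φ j ∈ one hs x).card) ≤ T.card * (17 / 20 : ℝ) ^ m :=
    le_trans (single_le_sum (f := fun x => (1 / 2 : ℝ) ^ ((univ.filter fun j => φ j ∈ one hs x).card))
      (fun _ _ => by positivity) hx) hφ
  rw [e1] at h3
  have h4 : (1 / 2 : ℝ) ^ k < T.card * (17 / 20 : ℝ) ^ m :=
    lt_of_lt_of_le (pow_lt_pow_right_of_lt_one₀ (by norm_num) (by norm_num) hcon) h3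
  have h5 : (T.card : ℝ) ≤ ((n : ℝ) + 1) ^ (2 * s) := by
    have h6 : T.card ≤ (n + 1) ^ (2 * s) := by
      refine le_trans (card_le_card ?_) (card_small n (2 * s))
      intro y hy
      rw [hT, mem_filter] at hy
      rw [mem_filter]
      exact ⟨mem_univ _, hy.2.2.le⟩
    exact_mod_cast h6
  have h6 : (17 / 20 : ℝ) ^ m ≤ Real.exp (-(4 / 25 * m)) := by
    have h10 : (17 / 20 : ℝ) ≤ Real.exp (-(4 / 25)) := by
      -- `(17 / 20) ^ 25 ≤ e ^ (-4)`
      have h11 : (17 / 20 : ℝ) ^ 25 ≤ Real.exp (-(4 / 25)) ^ 25 := by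
        have h12 : Real.exp (-(4 / 25)) ^ 25 = (Real.exp 1 ^ 4)⁻¹ := by
          rw [← Real.exp_nat_mul, ← Real.exp_nat_mul, ← Real.exp_neg]
          norm_num
        rw [h12, ← one_div, le_div_iff₀ (by positivity)]
        have h13 := Real.exp_one_lt_d9
        calc (17 / 20 : ℝ) ^ 25 * Real.exp 1 ^ 4 ≤ (17 / 20 : ℝ) ^ 25 * 2.7182818286 ^ 4 := by gcongr
          _ ≤ 1 := by norm_num
      exact le_of_pow_le_pow_left₀ (by norm_num) (by positivity) h11
    calc (17 / 20 : ℝ) ^ m ≤ (Real.exp (-(4 / 25))) ^ m := pow_le_pow_left₀ (by norm_num) h10 m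
      _ = Real.exp (-(4 / 25 * m)) := by rw [← Real.exp_nat_mul]; congr 1; ring
  have hn0 : (0 : ℝ) < (n : ℝ) + 1 := by positivity
  have h7 : ((n : ℝ) + 1) ^ (2 * s) * Real.exp (-(4 / 25 * m)) ≤ (1 / 2 : ℝ) ^ k := by
    rw [← Real.log_le_log_iff (by positivity) (by positivity), Real.log_mul (by positivity) (by positivity),
      Real.log_exp, Real.log_pow, Real.log_pow, one_div, Real.log_inv]
    push_cast
    linarith
  have h8 : (T.card : ℝ) * (17 / 20 : ℝ) ^ m ≤ ((n : ℝ) + 1) ^ (2 * s) * Real.exp (-(4 / 25 * m)) := by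
    gcongr
  linarith

/-- Number of rows of the scale `2 ^ j`. -/
noncomputable def mm (n k j : ℕ) : ℕ := ⌈25 / 4 * (2 * (2 ^ j : ℕ) * Real.log (n + 1) + k * Real.log 2)⌉₊

/-- The number of scales. -/
def JJ (n k : ℕ) : ℕ := Nat.log 2 (min n k) + 1

theorem sum_mm {n k : ℕ} (hn : 1 ≤ n) (hk : 1 ≤ k) :
    ((∑ j : Fin (JJ n k), mm n k j : ℕ) : ℝ) ≤ 41 * k * Real.log (n + 1) := by
  have hL : 0 ≤ Real.log ((n : ℝ) + 1) := Real.log_nonneg (by
    have : (0 : ℝ) ≤ n := Nat.cast_nonneg n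
    linarith)
  have hk0 : (1 : ℝ) ≤ k := by exact_mod_cast hk
  have hn0 : (1 : ℝ) ≤ n := by exact_mod_cast hn
  have hmm : ∀ j, (mm n k j : ℝ) ≤ 25 / 2 * (2 : ℝ) ^ j * Real.log (n + 1) + (25 / 4 * k * Real.log 2 + 1) := by
    intro j
    have h1 : (mm n k j : ℝ) < 25 / 4 * (2 * (2 ^ j : ℕ) * Real.log (n + 1) + k * Real.log 2) + 1 :=
      Nat.ceil_lt_add_one (by positivity)
    push_cast at h1
    linarith
  have hmin : min n k ≠ 0 := by omega
  have h2J : (2 : ℝ) ^ (JJ n k) ≤ 2 * (min n k : ℕ) := by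
    have h1 := Nat.pow_log_le_self 2 hmin
    have h2 : 2 ^ (JJ n k) ≤ 2 * min n k := by
      unfold JJ
      rw [pow_succ]
      omega
    exact_mod_cast h2
  have h2k : (2 : ℝ) ^ (JJ n k) ≤ 2 * k := by
    refine h2J.trans ?_
    have : ((min n k : ℕ) : ℝ) ≤ k := by exact_mod_cast min_le_right n k
    linarith
  have h2n : (2 : ℝ) ^ (JJ n k) ≤ ((n : ℝ) + 1) ^ 2 := by
    refine h2J.trans ?_
    have : ((min n k : ℕ) : ℝ) ≤ n := by exact_mod_cast min_le_left n k
    nlinarith
  have hJ : (JJ n k : ℝ) * Real.log 2 ≤ 2 * Real.log (n + 1) := by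
    have h1 := Real.log_le_log (by positivity) h2n
    rw [Real.log_pow, Real.log_pow] at h1
    exact_mod_cast h1
  have hJ' : (JJ n k : ℝ) ≤ 3 * Real.log (n + 1) := by
    have h1 := Real.log_two_gt_d9
    have h2 : (0 : ℝ) ≤ JJ n k := Nat.cast_nonneg _
    nlinarith
  have hgeo : ∑ j : Fin (JJ n k), (2 : ℝ) ^ (j : ℕ) ≤ (2 : ℝ) ^ (JJ n k) := by
    rw [Fin.sum_univ_eq_sum_range (fun j => (2 : ℝ) ^ j), geom_sum_eq (by norm_num)]
    linarith
  calc ((∑ j : Fin (JJ n k), mm n k j : ℕ) : ℝ) = ∑ j : Fin (JJ n k), (mm n k j : ℝ) := by push_cast; rfl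
    _ ≤ ∑ j : Fin (JJ n k), (25 / 2 * (2 : ℝ) ^ (j : ℕ) * Real.log (n + 1) + (25 / 4 * k * Real.log 2 + 1)) :=
        sum_le_sum fun j _ => hmm j
    _ = 25 / 2 * (∑ j : Fin (JJ n k), (2 : ℝ) ^ (j : ℕ)) * Real.log (n + 1) +
        JJ n k * (25 / 4 * k * Real.log 2 + 1) := by
        rw [sum_add_distrib, sum_const, card_univ, Fintype.card_fin, nsmul_eq_mul, mul_sum, sum_mul]
    _ ≤ 25 / 2 * (2 * k) * Real.log (n + 1) + JJ n k * (25 / 4 * k * Real.log 2 + 1) := by
        have := hgeo.trans h2k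
        gcongr
    _ = 25 * k * Real.log (n + 1) + 25 / 4 * k * (JJ n k * Real.log 2) + JJ n k := by ring
    _ ≤ 25 * k * Real.log (n + 1) + 25 / 4 * k * (2 * Real.log (n + 1)) + 3 * Real.log (n + 1) := by gcongr
    _ ≤ 41 * k * Real.log (n + 1) := by nlinarith

/-- Nonempty sets `A j`, at most `41 k log (n + 1)` of them, such that every `x` with `1 ≤ |x| < k` meets
at least `k` of them in exactly one element. -/
theorem exists_family {n k : ℕ} (hn : 1 ≤ n) (hk : 1 ≤ k) :
    ∃ (m : ℕ) (A : Fin m → Finset (Fin n)), (m : ℝ) ≤ 41 * k * Real.log (n + 1) ∧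
      (∀ j, (A j).Nonempty) ∧ ∀ x : Finset (Fin n), x.Nonempty → x.card < k →
        k ≤ Nat.card {j // (A j ∩ x).card = 1} := by
  classical
  have hsc : ∀ j : Fin (JJ n k), ∃ A : Fin (mm n k j) → Finset (Fin n), ∀ x : Finset (Fin n),
      2 ^ (j : ℕ) ≤ x.card → x.card < 2 * 2 ^ (j : ℕ) →
      k ≤ (univ.filter fun i => (A i ∩ x).card = 1).card := fun j =>
    scale (by positivity) (Nat.le_ceil _)
  choose B hB using hsc
  let i0 : Fin n := ⟨0, hn⟩
  let A : (Σ j : Fin (JJ n k), Fin (mm n k j)) → Finset (Fin n) := fun q =>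
    if B q.1 q.2 = ∅ then {i0} else B q.1 q.2
  have hcard : Fintype.card (Σ j : Fin (JJ n k), Fin (mm n k j)) = ∑ j : Fin (JJ n k), mm n k j := by
    rw [Fintype.card_sigma]
    simp
  have hne : ∀ q, (A q).Nonempty := by
    intro q
    show (if B q.1 q.2 = ∅ then {i0} else B q.1 q.2).Nonempty
    split_ifs with h
    · exact singleton_nonempty _
    · exact nonempty_iff_ne_empty.2 h
  have hcount : ∀ x : Finset (Fin n), x.Nonempty → x.card < k → k ≤ Nat.card {q // (A q ∩ x).card = 1} := by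
    intro x hx hxk
    rw [Nat.card_eq_fintype_card, Fintype.card_subtype]
    have hxc := hx.card_pos
    have hxn : x.card ≤ n := by
      have := card_le_univ x
      rwa [Fintype.card_fin] at this
    have hj : Nat.log 2 x.card < JJ n k := by
      unfold JJ
      exact Nat.lt_succ_of_le (Nat.log_mono_right (le_min hxn (by omega)))
    have h1 := hB ⟨Nat.log 2 x.card, hj⟩ x (Nat.pow_log_le_self 2 hxc.ne') (by
      have := Nat.lt_pow_succ_log_self (by norm_num : 1 < 2) x.card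
      rw [Nat.pow_succ, mul_comm] at this
      exact this)
    refine h1.trans ?_
    refine card_le_card_of_injOn (fun i => (⟨⟨Nat.log 2 x.card, hj⟩, i⟩ :
      Σ j : Fin (JJ n k), Fin (mm n k j))) ?_ ?_
    · intro i hi
      rw [mem_coe, mem_filter] at hi
      rw [mem_coe, mem_filter]
      refine ⟨mem_univ _, ?_⟩
      show ((if B ⟨Nat.log 2 x.card, hj⟩ i = ∅ then {i0} else B ⟨Nat.log 2 x.card, hj⟩ i) ∩ x).card = 1
      rw [if_neg]
      · exact hi.2
      · intro h
        rw [h, empty_inter, card_empty] at hi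
        exact absurd hi.2 (by norm_num)
    · intro a _ b _ h
      exact eq_of_heq (Sigma.mk.inj h).2
  let e := Fintype.equivFin (Σ j : Fin (JJ n k), Fin (mm n k j))
  refine ⟨_, fun j => A (e.symm j), ?_, fun j => hne _, fun x hx hxk => ?_⟩
  · rw [hcard]
    exact sum_mm hn hk
  · refine (hcount x hx hxk).trans_eq (Nat.card_congr (e.subtypeEquiv fun q => ?_))
    show (A q ∩ x).card = 1 ↔ (A (e.symm (e q)) ∩ x).card = 1
    rw [e.symm_apply_apply]

end Pool.Agent.Helper68.LG
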